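import Pool.Agent.W431.PInv.Exist

/-!
# The discriminant exponent of the associated-form contravariant is `1`

For all `n ≥ 2` and `d ≥ 3` we show `p(n,d) = 1`. In fact `p_i = 1` for every exponent vector `i`
with `|i| = n(d-2)`. The discriminant is characterised (up to a nonzero scalar) as an irreducible
polynomial in the coefficients vanishing exactly at the singular forms; its existence is part of
the theorem, and so is the existence and uniqueness of the numbers `μ_i(f)`.

Idea of the proof. Let `A = ℂ[V]`, let `F` be the vector of partial derivatives of the generic form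
and `H` its Hessian. (1) By the Nullstellensatz `Δ^N z_i^N = ∑ C_ij F_j`, and the functional
`Π(g) = coeff_{(N-1,…,N-1)}(g det C)` kills the ideal `(F)`, has `Π(H) = Δ^(Nn)` and computes `μ_i`:
`μ_i = Π(z^i) / Δ^(Nn)` (a Bezoutian argument). (2) At one explicit singular form `f_0` the degree
`n(d-2)` part of `ℂ[z]/(∂f_0)` is spanned by any monomial `z^i` (maximum principle), so by Nakayama
`q H = h z^i` modulo `(F)` with `q(f_0) = 1`. Hence `h Π(z^i) = q Δ^(Nn)`. (3) On an explicit line
through `f_0` the residue functional is an explicit sum over roots of unity with a simple pole, so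
`Δ² ∤ h`. Therefore `Δ^(Nn-1)` divides `Π(z^i)`, i.e. `Δ μ_i` is a polynomial. The same pole shows
`p_i ≥ 1`.
-/

namespace Pool.Agent.Results.MP_ee1e03_al.ExponentIsOne

open MvPolynomial Pool.Agent.W431.PInv

/-- **`p(n,d) = 1` for all `n ≥ 2`, `d ≥ 3`.** -/
theorem result (n d : ℕ) (hn : 2 ≤ n) (hd : 3 ≤ d) :
    (∃ Δ : MvPolynomial (Expo n d) ℂ, IsDiscriminant Δ) ∧
    ∀ Δ : MvPolynomial (Expo n d) ℂ, IsDiscriminant Δ →
      (∀ f : MvPolynomial (Fin n) ℂ, f.IsHomogeneous d → evalAt Δ f ≠ 0 →
        ∀ i : Expo n (n * (d - 2)), ∃! c : ℂ, IsMu f i.1 c) ∧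
      (∀ i : Expo n (n * (d - 2)), IsLeast {p : ℤ | IsPolyMul Δ i.1 p} 1) ∧
      pInv Δ = 1 := by
  refine ⟨exists_isDiscriminant hn hd, fun Δ hΔ => ⟨fun f hf hne i => ?_, fun i => ?_, ?_⟩⟩
  · exact exists_unique_mu (by omega) (fun f hf hs => (hΔ.2 f hf).2 hs) hf hne i.2
  · exact isLeast_one hn hd hΔ i.2
  · exact pInv_eq_one hn hd hΔ

end Pool.Agent.Results.MP_ee1e03_al.ExponentIsOne
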